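import Mathlib
import Pool.Agent.N176.GP.Fin

set_option autoImplicit false

/-!
# Decimal repunits and first digits: the gaps between the good lengths

For a real `β > 0` and a prime `p` let `W β p` be the `p`-rough part (the product, with multiplicity,
of the prime factors larger than `p`) of the largest integer below `β * 10 ^ p`, the integer formed by
the first `p` decimal digits of `β` (for `0 < β ≤ 1`, non-terminating expansion).  For
`β = 1 / 9 = 0.111...` this is the repunit `R_p` itself, for every prime `p ≠ 3`.  Call a prime `p` a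
good length for `β` if `W β p` is prime.

For almost every `β > 0` every interval `(n, n (log n) ^ C]`, `n` large, contains a good length, so
infinitude holds with gaps `O(log log p)` between consecutive good lengths on the logarithmic scale,
the order of the largest gaps of a Poisson process of constant intensity in `log n`; and all
intervals `(n, n']` with `n' ≥ n (log n) ^ C` contain at least `c log (n' / n)` good lengths, the
right order of magnitude.  The same holds for the good lengths in any given set `S` of primes with a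
weight `∑ log p / p ≥ κ` in all intervals `(x, A x]`, with `C` and `c` depending on `κ` and `A` only.
-/

namespace Pool.Agent.N176.Shelf.LogarithmicGapsTen

open Filter Topology MeasureTheory

/-- The product, with multiplicity, of the prime factors of `m` that are larger than `p`. -/
def roughPart (p m : ℕ) : ℕ := (m.primeFactorsList.filter (fun r => p < r)).prod

/-- The `p`-rough part of the largest integer below `β * 10 ^ p`. -/
noncomputable def W (β : ℝ) (p : ℕ) : ℕ := roughPart p (⌈β * 10 ^ p⌉₊ - 1)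

open Classical in
/-- The number of primes `p ≤ n` in the set `S` for which `W β p` is prime. -/
noncomputable def N (S : Set ℕ) (β : ℝ) (n : ℕ) : ℕ :=
  ((Finset.range (n + 1)).filter (fun p => p.Prime ∧ p ∈ S ∧ (W β p).Prime)).card

open Classical in
/-- For all large `x` the sum of `log p / p` over the primes `p` of `S` in `(x, A x]` is at least
`κ`. -/
def Thick (κ : ℝ) (A : ℕ) (S : Set ℕ) : Prop :=
  ∀ᶠ x : ℕ in atTop, κ ≤ ∑ p ∈ (Finset.Ioc x (A * x)).filter (fun p => p.Prime ∧ p ∈ S),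
    Real.log p / p

lemma N_le_of {S : Set ℕ} {β : ℝ} {n n' : ℕ}
    (h : ∀ p : ℕ, p.Prime → (W β p).Prime → n < p → p ≤ n' → False) : N S β n' ≤ N S β n := by
  classical
  unfold N
  refine Finset.card_le_card fun p hp => ?_
  rw [Finset.mem_filter, Finset.mem_range] at hp ⊢
  refine ⟨?_, hp.2⟩
  by_contra hlt
  exact h p hp.2.1 hp.2.2.2 (by omega) (by omega)

/-- all prime factors of a repunit are large -/
lemma lt_of_dvd_repunit {b p r : ℕ} (hb : 2 ≤ b) (hp : p.Prime) (hpb : ¬ p ∣ b - 1) (hr : r.Prime)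
    (h : r ∣ (b ^ p - 1) / (b - 1)) : p < r := by
  haveI : Fact p.Prime := ⟨hp⟩
  haveI : Fact r.Prime := ⟨hr⟩
  have hdiv : (b - 1) ∣ b ^ p - 1 := by
    have h := Nat.sub_dvd_pow_sub_pow b 1 p
    rwa [one_pow] at h
  have hgeom : (∑ i ∈ Finset.range p, b ^ i) = (b ^ p - 1) / (b - 1) :=
    Nat.geomSum_eq hb p
  have h0 : r ∣ b ^ p - 1 := h.trans (Nat.div_dvd_of_dvd hdiv)
  have h1 : (b : ZMod r) ^ p = 1 := by
    have h2 : ((b ^ p - 1 : ℕ) : ZMod r) = 0 := (ZMod.natCast_eq_zero_iff _ _).2 h0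
    rw [Nat.cast_sub (Nat.one_le_pow _ _ (by omega))] at h2
    push_cast at h2
    exact sub_eq_zero.1 h2
  have h2 : (b : ZMod r) ≠ 1 := by
    intro h3
    rw [← hgeom] at h
    have h4 : ((∑ i ∈ Finset.range p, b ^ i : ℕ) : ZMod r) = 0 := (ZMod.natCast_eq_zero_iff _ _).2 h
    push_cast at h4
    rw [h3] at h4
    simp only [one_pow, Finset.sum_const, Finset.card_range, nsmul_eq_mul, mul_one] at h4
    have h5 : r ∣ p := (ZMod.natCast_eq_zero_iff _ _).1 h4
    have h6 : r = p := (Nat.prime_dvd_prime_iff_eq hr hp).1 h5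
    subst h6
    apply hpb
    rw [← ZMod.natCast_eq_zero_iff, Nat.cast_sub (by omega), h3]
    simp
  have h3 : orderOf (b : ZMod r) = p := orderOf_eq_prime h1 h2
  have h4 : (b : ZMod r) ≠ 0 := by
    intro h5
    rw [h5, zero_pow hp.ne_zero] at h1
    exact zero_ne_one h1
  have h5 : p ∣ r - 1 := by
    rw [← h3]
    exact orderOf_dvd_of_pow_eq_one (ZMod.pow_card_sub_one_eq_one h4)
  have h6 := Nat.le_of_dvd (by have := hr.one_lt; omega) h5
  have h7 := hr.one_lt
  omega

/-- the special value -/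
lemma special {p : ℕ} (hp : p.Prime) (hp3 : p ≠ 3) :
    W (1 / 9) p = ∑ i ∈ Finset.range p, 10 ^ i := by
  have hp9 : ¬ p ∣ 10 - 1 := by
    intro h
    have : p ∣ 3 ^ 2 := by simpa using h
    exact hp3 ((Nat.prime_dvd_prime_iff_eq hp Nat.prime_three).1 (hp.dvd_of_dvd_pow this))
  have hgeom : (∑ i ∈ Finset.range p, 10 ^ i) = (10 ^ p - 1) / (10 - 1) :=
    Nat.geomSum_eq (by norm_num) p
  set R := ∑ i ∈ Finset.range p, 10 ^ i with hR
  have hRr : (R : ℝ) * 9 = (10 : ℝ) ^ p - 1 := by
    have h := geom_sum_mul (10 : ℝ) p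
    rw [hR]
    push_cast
    linarith
  have e : (1 / 9 : ℝ) * 10 ^ p = R + 1 / 9 := by linarith
  have hceil : ⌈(1 / 9 : ℝ) * 10 ^ p⌉₊ = R + 1 := by
    rw [e, Nat.ceil_eq_iff (Nat.succ_ne_zero R)]
    push_cast
    constructor
    · linarith
    · linarith
  unfold W
  rw [hceil, Nat.add_sub_cancel]
  unfold roughPart
  have hR0 : R ≠ 0 := by
    intro h0
    rw [h0] at hRr
    have h1 : (10 : ℝ) ^ 1 ≤ 10 ^ p := pow_le_pow_right₀ (by norm_num) hp.one_lt.le
    push_cast at hRr
    linarith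
  rw [List.filter_eq_self.2, Nat.prod_primeFactorsList hR0]
  intro r hr
  have h1 := Nat.dvd_of_mem_primeFactorsList hr
  rw [hgeom] at h1
  have := lt_of_dvd_repunit (b := 10) (by norm_num) hp hp9 (Nat.prime_of_mem_primeFactorsList hr) h1
  simpa using this

/-- The values at `β = 1 / 9` are the repunits; for almost every `β` every interval
`(n, n (log n) ^ C]` contains a good length; for almost every `β` the good lengths in a thick set have
at least the right order of magnitude in all intervals `(n, n']` with `n' ≥ n (log n) ^ C`; the set of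
all primes is thick. -/
theorem result :
    (∀ p : ℕ, p.Prime → p ≠ 3 → W (1 / 9) p = ∑ i ∈ Finset.range p, 10 ^ i) ∧
    (∃ C : ℝ, ∀ᵐ β : ℝ, 0 < β → ∀ᶠ n : ℕ in atTop,
      ∃ p : ℕ, p.Prime ∧ (W β p).Prime ∧ n < p ∧ (p : ℝ) ≤ n * (Real.log n) ^ C) ∧
    (∀ κ : ℝ, 0 < κ → ∀ A : ℕ, ∃ C c : ℝ, 0 < c ∧ ∀ S : Set ℕ, Thick κ A S →
      ∀ᵐ β : ℝ, 0 < β → ∀ᶠ n : ℕ in atTop, ∀ n' : ℕ, (n : ℝ) * (Real.log n) ^ C ≤ n' →
        c * Real.log ((n' : ℝ) / n) ≤ (N S β n' : ℝ) - N S β n) ∧
    (∃ A : ℕ, Thick 1 A Set.univ) := by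
  classical
  have key : ∀ κ : ℝ, 0 < κ → ∀ A : ℕ, ∃ C c : ℝ, 0 < c ∧ ∀ S : Set ℕ, Thick κ A S →
      ∀ᵐ β : ℝ, 0 < β → ∀ᶠ n : ℕ in atTop, ∀ n' : ℕ, (n : ℝ) * (Real.log n) ^ C ≤ n' →
        c * Real.log ((n' : ℝ) / n) ≤ (N S β n' : ℝ) - N S β n := by
    intro κ hκ A
    obtain ⟨C, c, hc, h⟩ := Pool.Agent.N176.GP.main2 (b := 10) (by norm_num) κ hκ A
    refine ⟨C, c, hc, fun S hS => ?_⟩
    have h1 := h S (eventually_atTop.1 hS)
    have e : ∀ β n, Pool.Agent.N176.GP.MB 10 S β n = N S β n := by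
      intro β n
      unfold Pool.Agent.N176.GP.MB N W Pool.Agent.N176.GP.NB
      push_cast
      rfl
    simpa only [e] using h1
  have hthick : ∃ A : ℕ, Thick 1 A Set.univ := by
    obtain ⟨A, hA⟩ := Pool.Agent.N176.GP.thick_univ
    refine ⟨A, ?_⟩
    filter_upwards [eventually_ge_atTop 1] with x hx
    convert hA x hx
  refine ⟨fun p hp h3 => special hp h3, ?_, key, hthick⟩
  obtain ⟨A, hA⟩ := hthick
  obtain ⟨C, c, hc, h⟩ := key 1 one_pos A
  refine ⟨max C 0 + 1, ?_⟩
  filter_upwards [h Set.univ hA] with β hβ hβ0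
  have hlog : Tendsto (fun n : ℕ => Real.log n) atTop atTop :=
    Real.tendsto_log_atTop.comp tendsto_natCast_atTop_atTop
  filter_upwards [hβ hβ0, hlog.eventually_ge_atTop 3, eventually_ge_atTop 1] with n h1 h2 h3
  have hn1 : (1 : ℝ) ≤ n := by exact_mod_cast h3
  set n' := ⌊(n : ℝ) * (Real.log n) ^ (max C 0 + 1)⌋₊ with hn'
  have hL0 : 0 < Real.log n := by linarith
  have hP1 : 1 ≤ (Real.log n) ^ (max C 0) := Real.one_le_rpow (by linarith) (le_max_right _ _)
  have hPC : (Real.log n) ^ C ≤ (Real.log n) ^ (max C 0) :=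
    Real.rpow_le_rpow_of_exponent_le (by linarith) (le_max_left _ _)
  have hsp : (Real.log n) ^ (max C 0 + 1) = (Real.log n) ^ (max C 0) * Real.log n := by
    rw [Real.rpow_add hL0, Real.rpow_one]
  have hfl : (n : ℝ) * (Real.log n) ^ (max C 0 + 1) < n' + 1 := Nat.lt_floor_add_one _
  have hfl2 : (n' : ℝ) ≤ (n : ℝ) * (Real.log n) ^ (max C 0 + 1) := Nat.floor_le (by positivity)
  rw [hsp] at hfl
  have h4 : (n : ℝ) * (Real.log n) ^ (max C 0) * 2 ≤ n' := by
    nlinarith [mul_le_mul hn1 hP1 zero_le_one (by linarith : (0 : ℝ) ≤ n)]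
  have h5 : (n : ℝ) * (Real.log n) ^ C ≤ n' := by
    have : (n : ℝ) * (Real.log n) ^ C ≤ n * (Real.log n) ^ (max C 0) := by gcongr
    have h6 : 0 ≤ (n : ℝ) * (Real.log n) ^ (max C 0) := by positivity
    linarith
  have h6 := h1 n' h5
  have h7 : (n : ℝ) < n' := by nlinarith
  have h8 : 0 < Real.log ((n' : ℝ) / n) := Real.log_pos (by rw [one_lt_div (by linarith)]; exact h7)
  have h9 : (N Set.univ β n : ℝ) < N Set.univ β n' := by nlinarith
  have h10 : N Set.univ β n < N Set.univ β n' := by exact_mod_cast h9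
  by_contra hcon
  push Not at hcon
  have h11 : N Set.univ β n' ≤ N Set.univ β n := by
    refine N_le_of fun p hp hW hnp hpn => ?_
    have h12 := hcon p hp hW hnp
    have h13 : (p : ℝ) ≤ n' := by exact_mod_cast hpn
    linarith
  omega

end Pool.Agent.N176.Shelf.LogarithmicGapsTen
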