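import Mathlib
import Pool.Agent.N176.GP.Fin

set_option autoImplicit false

/-!
# The gaps between the exponents, on the logarithmic scale, for almost every amplitude

For real `β > 0` and a prime `p` let `W β p` be the `p`-rough part (the product, with multiplicity,
of the prime factors larger than `p`) of the largest integer below `β * 2 ^ p`.  For `β = 1` this is
the Mersenne number `2 ^ p - 1` itself.  The exponents of `β` are the primes `p` with `W β p` prime.
For almost every `β > 0` every interval `(n, n (log n) ^ C]`, `n` large, contains an exponent, so the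
gaps between consecutive exponents are `O(log log n)` on the logarithmic scale, the order of the
largest gaps of a Poisson process of constant intensity in `log n`; and all intervals `(n, n']` with
`n' ≥ n (log n) ^ C` contain at least `c log (n' / n)` exponents, the right order of magnitude.  The
same holds for the exponents in any given set `S` of primes with a weight `∑ log p / p ≥ κ` in all
intervals `(x, A x]`, with `C` and `c` depending on `κ` and `A` only.
-/

namespace Pool.Agent.N176.Shelf.LogarithmicGapsTwo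

open Filter Topology MeasureTheory

/-- The product, with multiplicity, of the prime factors of `m` that are larger than `p`. -/
def roughPart (p m : ℕ) : ℕ := (m.primeFactorsList.filter (fun r => p < r)).prod

/-- The `p`-rough part of the largest integer below `β * 2 ^ p`. -/
noncomputable def W (β : ℝ) (p : ℕ) : ℕ := roughPart p (⌈β * 2 ^ p⌉₊ - 1)

open Classical in
/-- The number of primes `p ≤ n` in the set `S` for which `W β p` is prime. -/
noncomputable def M (S : Set ℕ) (β : ℝ) (n : ℕ) : ℕ :=
  ((Finset.range (n + 1)).filter (fun p => p.Prime ∧ p ∈ S ∧ (W β p).Prime)).card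

open Classical in
/-- For all large `x` the sum of `log p / p` over the primes `p` of `S` in `(x, A x]` is at least
`κ`. -/
def Thick (κ : ℝ) (A : ℕ) (S : Set ℕ) : Prop :=
  ∀ᶠ x : ℕ in atTop, κ ≤ ∑ p ∈ (Finset.Ioc x (A * x)).filter (fun p => p.Prime ∧ p ∈ S),
    Real.log p / p

lemma M_le_of {S : Set ℕ} {β : ℝ} {n n' : ℕ}
    (h : ∀ p : ℕ, p.Prime → (W β p).Prime → n < p → p ≤ n' → False) : M S β n' ≤ M S β n := by
  classical
  unfold M
  refine Finset.card_le_card fun p hp => ?_
  rw [Finset.mem_filter, Finset.mem_range] at hp ⊢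
  refine ⟨?_, hp.2⟩
  by_contra hlt
  exact h p hp.2.1 hp.2.2.2 (by omega) (by omega)

/-- The counting function at `β = 1` is that of the Mersenne primes; for almost every amplitude every
interval `(n, n (log n) ^ C]` contains an exponent; for almost every amplitude the exponents in a
thick set have at least the right order of magnitude in all intervals `(n, n']` with
`n' ≥ n (log n) ^ C`; the set of all primes is thick. -/
theorem result :
    (∀ n : ℕ, M Set.univ 1 n =
      ((Finset.range (n + 1)).filter (fun p => p.Prime ∧ (2 ^ p - 1).Prime)).card) ∧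
    (∃ C : ℝ, ∀ᵐ β : ℝ, 0 < β → ∀ᶠ n : ℕ in atTop,
      ∃ p : ℕ, p.Prime ∧ (W β p).Prime ∧ n < p ∧ (p : ℝ) ≤ n * (Real.log n) ^ C) ∧
    (∀ κ : ℝ, 0 < κ → ∀ A : ℕ, ∃ C c : ℝ, 0 < c ∧ ∀ S : Set ℕ, Thick κ A S →
      ∀ᵐ β : ℝ, 0 < β → ∀ᶠ n : ℕ in atTop, ∀ n' : ℕ, (n : ℝ) * (Real.log n) ^ C ≤ n' →
        c * Real.log ((n' : ℝ) / n) ≤ (M S β n' : ℝ) - M S β n) ∧
    (∃ A : ℕ, Thick 1 A Set.univ) := by
  classical
  have key : ∀ κ : ℝ, 0 < κ → ∀ A : ℕ, ∃ C c : ℝ, 0 < c ∧ ∀ S : Set ℕ, Thick κ A S →
      ∀ᵐ β : ℝ, 0 < β → ∀ᶠ n : ℕ in atTop, ∀ n' : ℕ, (n : ℝ) * (Real.log n) ^ C ≤ n' →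
        c * Real.log ((n' : ℝ) / n) ≤ (M S β n' : ℝ) - M S β n := by
    intro κ hκ A
    obtain ⟨C, c, hc, h⟩ := Pool.Agent.N176.GP.main2 (b := 2) le_rfl κ hκ A
    refine ⟨C, c, hc, fun S hS => ?_⟩
    have h1 := h S (eventually_atTop.1 hS)
    have e : ∀ β n, Pool.Agent.N176.GP.MB 2 S β n = M S β n := by
      intro β n
      unfold Pool.Agent.N176.GP.MB M W Pool.Agent.N176.GP.NB
      push_cast
      rfl
    simpa only [e] using h1
  have hthick : ∃ A : ℕ, Thick 1 A Set.univ := by
    obtain ⟨A, hA⟩ := Pool.Agent.N176.GP.thick_univ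
    refine ⟨A, ?_⟩
    filter_upwards [eventually_ge_atTop 1] with x hx
    convert hA x hx
  refine ⟨fun n => ?_, ?_, key, hthick⟩
  · unfold M
    congr 1
    ext p
    simp only [Finset.mem_filter, Set.mem_univ, true_and]
    refine and_congr_right fun _ => and_congr_right fun hp => ?_
    have h : W 1 p = 2 ^ p - 1 := Pool.Agent.N176.GP.special hp
    rw [h]
  · obtain ⟨A, hA⟩ := hthick
    obtain ⟨C, c, hc, h⟩ := key 1 one_pos A
    refine ⟨max C 0 + 1, ?_⟩
    filter_upwards [h Set.univ hA] with β hβ hβ0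
    have hlog : Tendsto (fun n : ℕ => Real.log n) atTop atTop :=
      Real.tendsto_log_atTop.comp tendsto_natCast_atTop_atTop
    filter_upwards [hβ hβ0, hlog.eventually_ge_atTop 3, eventually_ge_atTop 1] with n h1 h2 h3
    have hn1 : (1 : ℝ) ≤ n := by exact_mod_cast h3
    set n' := ⌊(n : ℝ) * (Real.log n) ^ (max C 0 + 1)⌋₊ with hn'
    have hL0 : 0 < Real.log n := by linarith
    have hP1 : 1 ≤ (Real.log n) ^ (max C 0) := Real.one_le_rpow (by linarith) (le_max_right _ _)
    have hPC : (Real.log n) ^ C ≤ (Real.log n) ^ (max C 0) :=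
      Real.rpow_le_rpow_of_exponent_le (by linarith) (le_max_left _ _)
    have hsp : (Real.log n) ^ (max C 0 + 1) = (Real.log n) ^ (max C 0) * Real.log n := by
      rw [Real.rpow_add hL0, Real.rpow_one]
    have hfl : (n : ℝ) * (Real.log n) ^ (max C 0 + 1) < n' + 1 := Nat.lt_floor_add_one _
    have hfl2 : (n' : ℝ) ≤ (n : ℝ) * (Real.log n) ^ (max C 0 + 1) := Nat.floor_le (by positivity)
    rw [hsp] at hfl
    have h4 : (n : ℝ) * (Real.log n) ^ (max C 0) * 2 ≤ n' := by
      nlinarith [mul_le_mul hn1 hP1 zero_le_one (by linarith : (0 : ℝ) ≤ n)]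
    have h5 : (n : ℝ) * (Real.log n) ^ C ≤ n' := by
      have : (n : ℝ) * (Real.log n) ^ C ≤ n * (Real.log n) ^ (max C 0) := by gcongr
      have h6 : 0 ≤ (n : ℝ) * (Real.log n) ^ (max C 0) := by positivity
      linarith
    have h6 := h1 n' h5
    have h7 : (n : ℝ) < n' := by nlinarith
    have h8 : 0 < Real.log ((n' : ℝ) / n) := Real.log_pos (by rw [one_lt_div (by linarith)]; exact h7)
    have h9 : (M Set.univ β n : ℝ) < M Set.univ β n' := by nlinarith
    have h10 : M Set.univ β n < M Set.univ β n' := by exact_mod_cast h9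
    by_contra hcon
    push Not at hcon
    have h11 : M Set.univ β n' ≤ M Set.univ β n := by
      refine M_le_of fun p hp hW hnp hpn => ?_
      have h12 := hcon p hp hW hnp
      have h13 : (p : ℝ) ≤ n' := by exact_mod_cast hpn
      linarith
    omega

end Pool.Agent.N176.Shelf.LogarithmicGapsTwo
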